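import Pool.Agent.KFre.Main
import Pool.Agent.KKc.Small

/-!
# Koszulness of base rings: all matroids with at most seven elements, minimal counterexamples (MP_6c1116_co)

(1) The base ring of every matroid with at most seven elements, for example of the Fano matroid, is Koszul over every
field.  (2) If the base ring of a matroid `M` on a finite set is not Koszul over the field `K`, then `M` has a minor `N`
whose base ring is not Koszul over `K` and which has at least eight elements, no loop, no coloop and no free pair.
The first part says that the matroid `N` of the second part cannot be smaller.

A cyclic flat of a matroid is a flat `F` with `x ∈ cl (F - x)` for all `x ∈ F`.  A pair `(e, f)` of different elements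
of the ground set is a free pair if every cyclic flat through `e` contains `f` and any two different cyclic flats
`F`, `F'` through `f` and off `e` satisfy `e ∈ cl (F ∪ F')` and `f ∉ cl ((F ∩ F') - f)`.

Proof.  (a) Matroids with a free pair reduce to proper minors (`KFre`).  (b) The connected matroids with at most seven
elements without free pairs are `M(K_4)`, the Fano matroid, its relaxation, the matroid `P` with the lines
`012, 034, 056, 135, 246`, and their duals (`KF7`).  (c) The base polytopes of the Fano matroid and of `P` are split at a
pair of elements into two slabs (at most one, at least one of the two elements).  (d) If an initial degeneration `gr_w` of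
a toric ring has a Koszul filtration by ideals generated by variables, then the toric ring is Koszul (`KKf.lin_of_cert`).
The slabs have such filtrations with 84, 241 (Fano), 141, 327 (`P`) members, `M(K_4)` has one with 40 members; for the
slab of the Fano matroid with 24 bases the weight is `0` on three of them and `1` on the others, in the other cases
`w = 0`.  The colon ideals are checked by the kernel (`KKc`).
-/

namespace Pool.Agent.Results.MP_6c1116_co.EightKoszul

theorem result {α : Type*} [Fintype α] (M : Matroid α) (K : Type*) [Field K] :
    (M.E.ncard ≤ 7 → KSum.IsKoszul K M) ∧
    (¬ KSum.IsKoszul K M → ∃ N : Matroid α, N.IsMinor M ∧ ¬ KSum.IsKoszul K N ∧ 8 ≤ N.E.ncard ∧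
      (∀ e ∈ N.E, ¬ N.IsLoop e ∧ ¬ N.IsColoop e) ∧ ∀ e f, ¬ KFre.Good N e f) := by
  refine ⟨fun h => KKc.small_koszul h K, fun hM => ?_⟩
  by_contra hN
  refine hM (KFre.free_koszul M K fun N hN1 _ hl hf => ?_)
  by_contra hK
  refine hN ⟨N, hN1, hK, ?_, hl, hf⟩
  rcases Nat.lt_or_ge N.E.ncard 8 with h1 | h1
  · exact absurd (KKc.small_koszul (Nat.lt_succ_iff.1 h1) K) hK
  · exact h1

end Pool.Agent.Results.MP_6c1116_co.EightKoszul
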