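import Pool.Agent.KGam.Main

/-!
# Base rings of gammoids are Koszul (MP_6c1116_co)

A matroid `M` is a gammoid if there are a finite digraph, a set `T` of its vertices and an injective map `ι` from the
ground set to the vertices such that a set `I` is independent in `M` if and only if there are pairwise vertex disjoint
directed paths from the vertices `ι x`, `x ∈ I`, to `T` (`KGam.IsGammoid`).  The base ring of every gammoid on a finite set
is Koszul over every field.

Proof (page kos53_gammoid): the base ring degenerates to the monomial ring of the lexicographically minimal flows of a
bipartite network.  This ring is a union of slices, the flows that are compatible with a potential with prescribed values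
on a set of vertices; a gluing theorem for fiber products with nested ideals (`KGam.fg_glue`, `KGam.fg_path`) reduces it to
the slices of full potentials (`KGam.fg_rec`), where the tight edges form a forest.  The order of the vertices is adaptive, so
that at most one link is open at any time (`KGam.UL`).  Flows on a forest have a quadratic normal form that is compatible
with all the ideals (`KGam.forest_qnf`, `KGam.fg_base`).
-/

namespace Pool.Agent.Results.MP_6c1116_co.GammoidKoszul

theorem result {α : Type*} [Fintype α] (M : Matroid α) (h : KGam.IsGammoid M) (K : Type*) [Field K] :
    KSum.IsKoszul K M :=
  KGam.gam_koszul h K

end Pool.Agent.Results.MP_6c1116_co.GammoidKoszul
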