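import Pool.Agent.KPl.Built

/-!
# Koszul base rings: all planar graphs, K_5, K_{3,3}, and direct sums, 2-sums, minors, duals (MP_6c1116_co)

The base ring of the cycle matroid of every connected planar graph (given as a combinatorial map on the sphere, loops and
parallel edges allowed) is Koszul over every field, and so is the base ring of every matroid built from such matroids,
from the cycle matroids of `K_5` and `K_{3,3}` and from matroids with Koszul base ring by direct sums, 2-sums, minors
and duals.

Proof for planar graphs (`KPl`).  Fix a root `r`, the outer face at `r` and a cost `c` of the darts, antisymmetric, with
cost `1` on the boundary of every inner face.  A spanning tree is an arborescence `p` (for every vertex `u ≠ r` the dart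
`p u` towards `r`); let `D` be its potential (`D u` = cost of the path from `u` to `r`).  Put `p ▷ q` if no dart of `p`
improves the potential of `q`.  The pairs of spanning trees comparable by `▷` are the standard pairs of a quadratic
Groebner basis of the toric ideal:
* uniqueness (every graph): a multiset of pairwise comparable trees has a last tree `q`, with `p ▷ q` for all its members,
  hence it has the largest cost among the multisets with the same sum and `q` is determined by the sum (`Uniq`);
* existence (planar graphs): of the darts of two trees choose the shortest path tree `p` and let `q` be the rest; a
  closed walk of `q` would enclose an area on its left, and counting the edges which leave the closed set against two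
  spanning trees gives a contradiction (`Planar`);
* the rewriting of pairs ends (weights, `Wt`), is confluent by uniqueness, and connects the fibres.
-/

namespace Pool.Agent.Results.MP_6c1116_co.PlanarKoszul

theorem result (K : Type*) [Field K] {α : Type*} [Fintype α] (M : Matroid α) (h : KPl.Built K M) :
    KSum.IsKoszul K M :=
  KPl.built_koszul K h

end Pool.Agent.Results.MP_6c1116_co.PlanarKoszul
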