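import Pool.Agent.KSpM.SplitM

/-!
# Koszulness of base rings of matroids is inherited from the two halves of a hyperplane split (MP_6c1116_co)

Let `M` be a matroid on a finite ground set, `S` a set and `t` a number such that the bases `B` of `M` with
`|B ∩ S| ≤ t` are the bases of a matroid `M₁` and the bases `B` of `M` with `t ≤ |B ∩ S|` are the bases of a matroid `M₂`
(the hyperplane `x(S) = t` cuts the base polytope of `M` into two matroid base polytopes).  If the base rings of `M₁`
and `M₂` over the field `K` are Koszul, then so is the base ring of `M`.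
-/

namespace Pool.Agent.Results.MP_6c1116_co.SplitKoszul

theorem result {α : Type*} [Fintype α] (M M₁ M₂ : Matroid α) (S : Set α) (t : ℕ)
    (h₁ : ∀ B : Set α, M₁.IsBase B ↔ M.IsBase B ∧ (B ∩ S).ncard ≤ t)
    (h₂ : ∀ B : Set α, M₂.IsBase B ↔ M.IsBase B ∧ t ≤ (B ∩ S).ncard)
    (K : Type*) [Field K] (k₁ : KSum.IsKoszul K M₁) (k₂ : KSum.IsKoszul K M₂) : KSum.IsKoszul K M :=
  KSpM.split_koszul h₁ h₂ K k₁ k₂

end Pool.Agent.Results.MP_6c1116_co.SplitKoszul
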